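import Mathlib

/-!
# Minimal non-realizable weavings of `n` lines, for every `n ≥ 4`

A weaving of `n` lines is a simple arrangement of `n` lines in the plane, where for every pair of
lines one of the two is designated as the upper one. We exhibit, for every `n ≥ 4`, a weaving which
is not weakly realizable, and such that each weaving obtained by deleting one of its lines is
realizable in the strict sense. The lines are the tangents `y = 2 i x - i²` of the parabola
`y = x²` at the points `x = i`, `0 ≤ i < n`. The line with the larger index is above, except for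
the cyclically neighbouring pairs `(i, i + 1)` and `(0, n - 1)`, where the line with the smaller
index is above.
-/

set_option autoImplicit false

namespace Pool.Agent.Results.MP_560143_co.MinimalWeavings

/-- The plane. -/
abbrev Plane : Type := ℝ × ℝ

/-- The space; the point `((x, y), z)` has the height `z`. -/
abbrev Space : Type := (ℝ × ℝ) × ℝ

/-- The orthogonal projection `((x, y), z) ↦ (x, y)` of the space to the plane. -/
def proj : Space →ᵃ[ℝ] Plane := (LinearMap.fst ℝ (ℝ × ℝ) ℝ).toAffineMap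

/-- An affine subspace is a line if its direction is one-dimensional. -/
def IsLine {V : Type} [AddCommGroup V] [Module ℝ V] (L : AffineSubspace ℝ V) : Prop :=
  Module.finrank ℝ L.direction = 1

/-- A weaving: a simple arrangement of lines in the plane, indexed by `ι`, together with the
designation, for each pair of lines, of one of the two as lying above the other. -/
structure Weaving (ι : Type) where
  /-- the lines -/
  line : ι → AffineSubspace ℝ Plane
  isLine : ∀ i, IsLine (line i)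
  not_parallel : ∀ i j, i ≠ j → ¬ (line i).Parallel (line j)
  not_concurrent : ∀ i j k, i ≠ j → i ≠ k → j ≠ k →
    ∀ p : Plane, ¬ (p ∈ line i ∧ p ∈ line j ∧ p ∈ line k)
  /-- `above i j` means that the line `i` is designated as lying above the line `j` -/
  above : ι → ι → Prop
  above_iff : ∀ i j, i ≠ j → (above i j ↔ ¬ above j i)

variable {ι : Type}

/-- A weaving is realizable if there are lines in the space which project onto the lines of the
weaving, such that over each crossing the point of the upper line has the larger height. -/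
def Weaving.Realizable (W : Weaving ι) : Prop :=
  ∃ R : ι → AffineSubspace ℝ Space, (∀ i, IsLine (R i)) ∧ (∀ i, (R i).map proj = W.line i) ∧
    ∀ i j, i ≠ j → W.above i j → ∀ p ∈ R i, ∀ q ∈ R j, proj p = proj q → q.2 < p.2

/-- The crossing points occur along corresponding lines of the two arrangements in the same order,
up to a reversal of each line: on the line `i`, the crossing with `k` lies strictly between the
crossings with `j` and with `l` in the first arrangement iff it does in the second. -/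
def Weaving.SameOrder (W W' : Weaving ι) : Prop :=
  ∀ i j k l, i ≠ j → i ≠ k → i ≠ l → ∀ p q r p' q' r' : Plane,
    p ∈ W.line i → p ∈ W.line j → q ∈ W.line i → q ∈ W.line k → r ∈ W.line i → r ∈ W.line l →
    p' ∈ W'.line i → p' ∈ W'.line j → q' ∈ W'.line i → q' ∈ W'.line k →
    r' ∈ W'.line i → r' ∈ W'.line l → (Sbtw ℝ p q r ↔ Sbtw ℝ p' q' r')

/-- A weaving is weakly realizable if some weaving with the same designations, whose arrangement is
combinatorially equivalent in the sense of `SameOrder`, is realizable. -/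
def Weaving.WeaklyRealizable (W : Weaving ι) : Prop :=
  ∃ W' : Weaving ι, W'.above = W.above ∧ W.SameOrder W' ∧ W'.Realizable

/-- Deletion of the line `l`. -/
def Weaving.erase (W : Weaving ι) (l : ι) : Weaving {i : ι // i ≠ l} where
  line i := W.line i
  isLine i := W.isLine i
  not_parallel i j h := W.not_parallel i j fun h' => h (Subtype.ext h')
  not_concurrent i j k h1 h2 h3 := W.not_concurrent i j k (fun h' => h1 (Subtype.ext h'))
    (fun h' => h2 (Subtype.ext h')) (fun h' => h3 (Subtype.ext h'))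
  above i j := W.above i j
  above_iff i j h := W.above_iff i j fun h' => h (Subtype.ext h')

/-! ### Lines -/

theorem exists_param {V : Type} [AddCommGroup V] [Module ℝ V] {L : AffineSubspace ℝ V}
    (h : IsLine L) : ∃ a v : V, v ≠ 0 ∧ L.direction = Submodule.span ℝ {v} ∧
      ∀ p, p ∈ L ↔ ∃ t : ℝ, p = a + t • v := by
  have hne : L ≠ ⊥ := by
    rintro rfl
    unfold IsLine at h
    rw [AffineSubspace.direction_bot, finrank_bot] at h
    exact absurd h (by norm_num)
  obtain ⟨a, ha⟩ := (AffineSubspace.nonempty_iff_ne_bot L).mpr hne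
  obtain ⟨v, hv, hs⟩ := finrank_eq_one_iff'.mp h
  refine ⟨a, v, fun h0 => hv (Subtype.ext h0), ?_, fun p => ?_⟩
  · apply le_antisymm
    · intro w hw
      obtain ⟨c, hc⟩ := hs ⟨w, hw⟩
      rw [Submodule.mem_span_singleton]
      exact ⟨c, congrArg Subtype.val hc⟩
    · rw [Submodule.span_singleton_le_iff_mem]
      exact v.2
  · rw [← AffineSubspace.vsub_right_mem_direction_iff_mem ha]
    constructor
    · intro hp
      obtain ⟨c, hc⟩ := hs ⟨_, hp⟩
      refine ⟨c, ?_⟩
      have := congrArg Subtype.val hc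
      simp only [Submodule.coe_smul, vsub_eq_sub] at this
      rw [this]; abel
    · rintro ⟨t, rfl⟩
      rw [vsub_eq_sub, add_sub_cancel_left]
      exact L.direction.smul_mem t v.2

/-- an affine function on the plane -/
structure Aff where
  a : ℝ
  b : ℝ
  c : ℝ

/-- its values -/
def Aff.ev (f : Aff) (p : Plane) : ℝ := f.a * p.1 + f.b * p.2 + f.c

/-- the height function of a line in the space with a given projection -/
theorem exists_height {R : AffineSubspace ℝ Space} {L : AffineSubspace ℝ Plane} (hR : IsLine R)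
    (hL : IsLine L) (h : R.map proj = L) : ∃ f : Aff, ∀ p ∈ L, (p, f.ev p) ∈ R := by
  obtain ⟨A, V, hV, hVs, hA⟩ := exists_param hR
  have hV1 : V.1 ≠ 0 := by
    intro h0
    have h1 : L.direction = ⊥ := by
      rw [← h, AffineSubspace.map_direction, hVs, Submodule.map_span, Set.image_singleton]
      have : proj.linear V = 0 := h0
      rw [this, Submodule.span_zero_singleton]
    unfold IsLine at hL
    rw [h1, finrank_bot] at hL
    exact absurd hL (by norm_num)
  set D : ℝ := V.1.1 ^ 2 + V.1.2 ^ 2 with hD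
  have hD0 : D ≠ 0 := by
    intro h0
    apply hV1
    have h1 : V.1.1 = 0 := by nlinarith [sq_nonneg V.1.1, sq_nonneg V.1.2]
    have h2 : V.1.2 = 0 := by nlinarith [sq_nonneg V.1.1, sq_nonneg V.1.2]
    exact Prod.ext h1 h2
  refine ⟨⟨V.2 * V.1.1 / D, V.2 * V.1.2 / D,
    A.2 - V.2 * (A.1.1 * V.1.1 + A.1.2 * V.1.2) / D⟩, fun p hp => ?_⟩
  rw [← h, AffineSubspace.mem_map] at hp
  obtain ⟨P, hP, rfl⟩ := hp
  obtain ⟨t, rfl⟩ := (hA P).mp hP
  have e : (proj (A + t • V), Aff.ev ⟨V.2 * V.1.1 / D, V.2 * V.1.2 / D,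
      A.2 - V.2 * (A.1.1 * V.1.1 + A.1.2 * V.1.2) / D⟩ (proj (A + t • V))) = A + t • V := by
    apply Prod.ext
    · rfl
    · change V.2 * V.1.1 / D * (A.1.1 + t * V.1.1) + V.2 * V.1.2 / D * (A.1.2 + t * V.1.2) +
        (A.2 - V.2 * (A.1.1 * V.1.1 + A.1.2 * V.1.2) / D) = A.2 + t * V.2
      field_simp
      rw [hD]; ring
  rw [e]
  exact hP

/-- lines which are not parallel have independent directions -/
theorem det_ne_zero {L M : AffineSubspace ℝ Plane} {a v b w : Plane} (hv : v ≠ 0) (hw : w ≠ 0)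
    (hL : L.direction = Submodule.span ℝ {v}) (hM : M.direction = Submodule.span ℝ {w})
    (ha : a ∈ L) (hb : b ∈ M) (h : ¬ L.Parallel M) : v.1 * w.2 - v.2 * w.1 ≠ 0 := by
  intro h0
  apply h
  rw [AffineSubspace.parallel_iff_direction_eq_and_eq_bot_iff_eq_bot]
  refine ⟨?_, ?_⟩
  · rw [hL, hM, Submodule.span_singleton_eq_span_singleton]
    by_cases h1 : v.1 = 0
    · have hv2 : v.2 ≠ 0 := fun h2 => hv (Prod.ext h1 h2)
      have hw1 : w.1 = 0 := by
        rw [h1, zero_mul, zero_sub, neg_eq_zero, mul_eq_zero] at h0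
        exact h0.resolve_left hv2
      have hw2 : w.2 ≠ 0 := fun h2 => hw (Prod.ext hw1 h2)
      refine ⟨Units.mk0 (w.2 / v.2) (div_ne_zero hw2 hv2), ?_⟩
      apply Prod.ext
      · simp [Units.smul_def, h1, hw1]
      · simp [Units.smul_def, hv2]
    · have hw1 : w.1 ≠ 0 := by
        intro h2
        rw [h2, mul_zero, sub_zero, mul_eq_zero] at h0
        exact hw (Prod.ext h2 (h0.resolve_left h1))
      refine ⟨Units.mk0 (w.1 / v.1) (div_ne_zero hw1 h1), ?_⟩
      apply Prod.ext
      · simp [Units.smul_def, h1]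
      · simp only [Units.smul_def, Units.val_mk0, Prod.smul_snd, smul_eq_mul]
        field_simp
        linear_combination -h0
  · constructor
    · rintro rfl
      exact absurd ha (AffineSubspace.notMem_bot ℝ Plane a)
    · rintro rfl
      exact absurd hb (AffineSubspace.notMem_bot ℝ Plane b)

/-- lines which are not parallel meet -/
theorem exists_cross {L M : AffineSubspace ℝ Plane} (hL : IsLine L) (hM : IsLine M)
    (h : ¬ L.Parallel M) : ∃ p, p ∈ L ∧ p ∈ M := by
  obtain ⟨a, v, hv, hvs, ha⟩ := exists_param hL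
  obtain ⟨b, w, hw, hws, hb⟩ := exists_param hM
  have haL : a ∈ L := (ha a).mpr ⟨0, by simp⟩
  have hbM : b ∈ M := (hb b).mpr ⟨0, by simp⟩
  have hd := det_ne_zero hv hw hvs hws haL hbM h
  set D := v.1 * w.2 - v.2 * w.1 with hD
  refine ⟨a + (((b.1 - a.1) * w.2 - (b.2 - a.2) * w.1) / D) • v, (ha _).mpr ⟨_, rfl⟩,
    (hb _).mpr ⟨((b.1 - a.1) * v.2 - (b.2 - a.2) * v.1) / D, ?_⟩⟩
  apply Prod.ext
  · simp only [Prod.fst_add, Prod.smul_fst, smul_eq_mul]
    field_simp
    rw [hD]; ring
  · simp only [Prod.snd_add, Prod.smul_snd, smul_eq_mul]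
    field_simp
    rw [hD]; ring

/-- an affine function which vanishes on a line and is positive at a given point outside -/
theorem exists_side {L : AffineSubspace ℝ Plane} (hL : IsLine L) {q : Plane} (hq : q ∉ L) :
    ∃ G : Aff, (∀ p ∈ L, G.ev p = 0) ∧ 0 < G.ev q ∧
      ∀ M : AffineSubspace ℝ Plane, IsLine M → ¬ L.Parallel M → ∀ f : Aff,
        ∃ u m : ℝ, ∀ p ∈ M, f.ev p = u + m * G.ev p := by
  obtain ⟨a, v, hv, hvs, ha⟩ := exists_param hL
  have haL : a ∈ L := (ha a).mpr ⟨0, by simp⟩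
  -- the form, up to the sign
  have key : ∀ s : ℝ, s ≠ 0 → ∀ M : AffineSubspace ℝ Plane, IsLine M → ¬ L.Parallel M →
      ∀ f : Aff, ∃ u m : ℝ, ∀ p ∈ M, f.ev p = u + m *
        (Aff.ev ⟨-(s * v.2), s * v.1, s * (v.2 * a.1 - v.1 * a.2)⟩ p) := by
    intro s hs M hM hp f
    obtain ⟨b, w, hw, hws, hb⟩ := exists_param hM
    have hbM : b ∈ M := (hb b).mpr ⟨0, by simp⟩
    have hd := det_ne_zero hv hw hvs hws haL hbM hp
    set D := v.1 * w.2 - v.2 * w.1 with hD
    refine ⟨f.ev b - (f.a * w.1 + f.b * w.2) / (s * D) *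
      (Aff.ev ⟨-(s * v.2), s * v.1, s * (v.2 * a.1 - v.1 * a.2)⟩ b),
      (f.a * w.1 + f.b * w.2) / (s * D), fun p hp => ?_⟩
    obtain ⟨t, rfl⟩ := (hb p).mp hp
    simp only [Aff.ev, Prod.fst_add, Prod.smul_fst, smul_eq_mul, Prod.snd_add, Prod.smul_snd]
    field_simp
    rw [hD]; ring
  have hz : ∀ s : ℝ, ∀ p ∈ L,
      Aff.ev ⟨-(s * v.2), s * v.1, s * (v.2 * a.1 - v.1 * a.2)⟩ p = 0 := by
    intro s p hp
    obtain ⟨t, rfl⟩ := (ha p).mp hp
    simp only [Aff.ev, Prod.fst_add, Prod.smul_fst, smul_eq_mul, Prod.snd_add, Prod.smul_snd]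
    ring
  have hq1 : v.1 * (q.2 - a.2) - v.2 * (q.1 - a.1) ≠ 0 := by
    intro h0
    apply hq
    rw [ha]
    by_cases h1 : v.1 = 0
    · have hv2 : v.2 ≠ 0 := fun h2 => hv (Prod.ext h1 h2)
      rw [h1, zero_mul, zero_sub, neg_eq_zero, mul_eq_zero] at h0
      have h3 := h0.resolve_left hv2
      refine ⟨(q.2 - a.2) / v.2, Prod.ext ?_ ?_⟩
      · simp only [Prod.fst_add, Prod.smul_fst, smul_eq_mul, h1]; linarith
      · simp only [Prod.snd_add, Prod.smul_snd, smul_eq_mul]; field_simp; ring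
    · refine ⟨(q.1 - a.1) / v.1, Prod.ext ?_ ?_⟩
      · simp only [Prod.fst_add, Prod.smul_fst, smul_eq_mul]; field_simp; ring
      · simp only [Prod.snd_add, Prod.smul_snd, smul_eq_mul]
        field_simp
        linear_combination h0
  rcases lt_or_gt_of_ne hq1 with h | h
  · refine ⟨⟨-(-1 * v.2), -1 * v.1, -1 * (v.2 * a.1 - v.1 * a.2)⟩, hz (-1), ?_,
      key (-1) (by norm_num)⟩
    simp only [Aff.ev]
    linarith
  · refine ⟨⟨-(1 * v.2), 1 * v.1, 1 * (v.2 * a.1 - v.1 * a.2)⟩, hz 1, ?_,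
      key 1 (by norm_num)⟩
    simp only [Aff.ev]
    linarith

/-- the values of an affine function at three points in this order, if the first value is zero -/
theorem sbtw_ev {G : Aff} {p q r : Plane} (h : Sbtw ℝ p q r) (hp : G.ev p = 0) :
    ∃ t : ℝ, 0 < t ∧ t < 1 ∧ G.ev q = t * G.ev r := by
  obtain ⟨⟨t, ⟨ht0, ht1⟩, rfl⟩, hqp, hqr⟩ := h
  refine ⟨t, lt_of_le_of_ne ht0 ?_, lt_of_le_of_ne ht1 ?_, ?_⟩
  · rintro rfl
    exact hqp (by simp)
  · rintro rfl
    exact hqr (by simp)
  · have e : (AffineMap.lineMap p r) t = (1 - t) • p + t • r := by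
      rw [AffineMap.lineMap_apply_module]
    rw [e]
    have hp' : G.a * p.1 + G.b * p.2 + G.c = 0 := hp
    simp only [Aff.ev, Prod.fst_add, Prod.smul_fst, smul_eq_mul, Prod.snd_add, Prod.smul_snd]
    linear_combination (1 - t) * hp'

/-- the crossing of two lines which are not parallel is unique -/
theorem cross_unique {L M : AffineSubspace ℝ Plane} (hL : IsLine L) (hM : IsLine M)
    (h : ¬ L.Parallel M) {p q : Plane} (hp : p ∈ L) (hp' : p ∈ M) (hq : q ∈ L) (hq' : q ∈ M) :
    p = q := by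
  obtain ⟨a, v, hv, hvs, ha⟩ := exists_param hL
  obtain ⟨b, w, hw, hws, hb⟩ := exists_param hM
  have hd := det_ne_zero hv hw hvs hws hp hp' h
  obtain ⟨s, rfl⟩ := (ha p).mp hp
  obtain ⟨t, rfl⟩ := (ha q).mp hq
  obtain ⟨x, hx⟩ := (hb _).mp hp'
  obtain ⟨y, hy⟩ := (hb _).mp hq'
  have h1 := congrArg Prod.fst hx
  have h2 := congrArg Prod.snd hx
  have h3 := congrArg Prod.fst hy
  have h4 := congrArg Prod.snd hy
  simp only [Prod.fst_add, Prod.smul_fst, smul_eq_mul, Prod.snd_add, Prod.smul_snd] at h1 h2 h3 h4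
  have h5 : (s - t) * (v.1 * w.2 - v.2 * w.1) = 0 := by
    linear_combination w.2 * h1 - w.1 * h2 - w.2 * h3 + w.1 * h4
  have h6 := (mul_eq_zero.mp h5).resolve_right hd
  rw [sub_eq_zero.mp h6]

/-- a realizable weaving is weakly realizable -/
theorem Weaving.Realizable.weakly {W : Weaving ι} (h : W.Realizable) : W.WeaklyRealizable := by
  refine ⟨W, rfl, ?_, h⟩
  intro i j k l hij hik hil p q r p' q' r' h1 h2 h3 h4 h5 h6 g1 g2 g3 g4 g5 g6
  rw [cross_unique (W.isLine i) (W.isLine j) (W.not_parallel i j hij) h1 h2 g1 g2,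
    cross_unique (W.isLine i) (W.isLine k) (W.not_parallel i k hik) h3 h4 g3 g4,
    cross_unique (W.isLine i) (W.isLine l) (W.not_parallel i l hil) h5 h6 g5 g6]

/-! ### The inequality -/

theorem numeric (N : ℕ) (u m g : ℕ → ℝ) (E : ℝ) (hN : 3 ≤ N) (hu1 : u 1 < 0) (huN : u N < 0)
    (hu : ∀ j, 2 ≤ j → j < N → 0 < u j) (hg : ∀ j, 1 ≤ j → j < N → 0 < g j)
    (hgm : ∀ j, 2 ≤ j → j < N → g (j - 1) < g j) (hE1 : g 1 < E) (hE2 : E < g (N - 1))
    (h : ∀ j, 1 ≤ j → j < N → u (j + 1) + m (j + 1) * g j < u j + m j * g j)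
    (hw : u 1 + m 1 * E < u N + m N * E) : False := by
  have hg1 : 0 < g 1 := hg 1 le_rfl (by omega)
  have hE : 0 < E := hg1.trans hE1
  have step : ∀ j, 1 ≤ j → j < N → m (j + 1) - m j < u j / g j - u (j + 1) / g j := by
    intro j h1 h2
    have hj := hg j h1 h2
    rw [← sub_div, lt_div_iff₀ hj]
    have := h j h1 h2
    linarith
  have claim : ∀ j, 2 ≤ j → j ≤ N → m j - m 1 < u 1 / g 1 - u j / g (j - 1) := by
    intro j hj
    induction j, hj using Nat.le_induction with
    | base =>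
      intro _
      exact step 1 le_rfl (by omega)
    | succ j hj ih =>
      intro hjN
      have h1 := ih (by omega)
      have h2 := step j (by omega) (by omega)
      have h3 : u j / g j ≤ u j / g (j - 1) :=
        div_le_div_of_nonneg_left (hu j hj (by omega)).le (hg (j - 1) (by omega) (by omega))
          (hgm j hj (by omega)).le
      rw [Nat.add_sub_cancel]
      linarith
  have h1 := claim N (by omega) le_rfl
  have h2 : u 1 / E - u N / E < m N - m 1 := by
    rw [← sub_div, div_lt_iff₀ hE]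
    linarith
  have hgN : 0 < g (N - 1) := hg (N - 1) (by omega) (by omega)
  have h3 : u 1 / g 1 < u 1 / E := by
    rw [div_lt_div_iff₀ hg1 hE]
    nlinarith
  have h4 : u N / E < u N / g (N - 1) := by
    rw [div_lt_div_iff₀ hE hgN]
    nlinarith
  linarith

/-! ### The tangents of the parabola -/

/-- the tangent `y = 2 t x - t²` of the parabola `y = x²` at the point `(t, t²)` -/
def tang (t : ℝ) : AffineSubspace ℝ Plane :=
  AffineSubspace.mk' (t, t ^ 2) (Submodule.span ℝ {((1 : ℝ), 2 * t)})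

theorem mem_tang (t : ℝ) (p : Plane) : p ∈ tang t ↔ p.2 = 2 * t * p.1 - t ^ 2 := by
  unfold tang
  rw [AffineSubspace.mem_mk', Submodule.mem_span_singleton]
  constructor
  · rintro ⟨a, ha⟩
    have h1 := congrArg Prod.fst ha
    have h2 := congrArg Prod.snd ha
    simp only [Prod.smul_fst, smul_eq_mul, vsub_eq_sub, Prod.fst_sub, mul_one, Prod.smul_snd,
      Prod.snd_sub] at h1 h2
    rw [h1] at h2
    linarith
  · intro h
    refine ⟨p.1 - t, Prod.ext ?_ ?_⟩
    · simp
    · simp only [Prod.smul_snd, smul_eq_mul, vsub_eq_sub, Prod.snd_sub, h]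
      ring

theorem isLine_tang (t : ℝ) : IsLine (tang t) := by
  unfold IsLine tang
  rw [AffineSubspace.direction_mk']
  exact finrank_span_singleton (by simp [Prod.ext_iff])

theorem cross_tang {s t : ℝ} (h : s ≠ t) {p : Plane} (h1 : p ∈ tang s) (h2 : p ∈ tang t) :
    p = ((s + t) / 2, s * t) := by
  rw [mem_tang] at h1 h2
  have h3 : (s - t) * (2 * p.1 - (s + t)) = 0 := by linear_combination h2 - h1
  have h4 := (mul_eq_zero.mp h3).resolve_left (sub_ne_zero.mpr h)
  have h5 : p.1 = (s + t) / 2 := by linarith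
  apply Prod.ext
  · exact h5
  · change p.2 = s * t
    rw [h1, h5]; ring

theorem mem_tang_left (s t : ℝ) : ((s + t) / 2, s * t) ∈ tang s := by
  rw [mem_tang]; ring

theorem mem_tang_right (s t : ℝ) : ((s + t) / 2, s * t) ∈ tang t := by
  rw [mem_tang]; ring

theorem not_parallel_tang {s t : ℝ} (h : s ≠ t) : ¬ (tang s).Parallel (tang t) := by
  intro hp
  have h1 := hp.direction_eq
  unfold tang at h1
  rw [AffineSubspace.direction_mk', AffineSubspace.direction_mk'] at h1
  have h2 : ((1 : ℝ), 2 * s) ∈ Submodule.span ℝ {((1 : ℝ), 2 * t)} := by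
    rw [← h1]; exact Submodule.mem_span_singleton_self _
  rw [Submodule.mem_span_singleton] at h2
  obtain ⟨a, ha⟩ := h2
  have h3 := congrArg Prod.fst ha
  have h4 := congrArg Prod.snd ha
  simp only [Prod.smul_fst, smul_eq_mul, mul_one, Prod.smul_snd] at h3 h4
  rw [h3] at h4
  exact h (by linarith)

theorem sbtw_tang (s : ℝ) {a b c : ℝ} (hab : a < b) (hbc : b < c) :
    Sbtw ℝ ((s + a) / 2, s * a) ((s + b) / 2, s * b) ((s + c) / 2, s * c) := by
  have hac : 0 < c - a := by linarith
  refine ⟨⟨(b - a) / (c - a), ⟨by apply div_nonneg <;> linarith, ?_⟩, ?_⟩, ?_, ?_⟩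
  · rw [div_le_one hac]; linarith
  · rw [AffineMap.lineMap_apply_module]
    apply Prod.ext
    · simp only [Prod.fst_add, Prod.smul_fst, smul_eq_mul]
      field_simp; ring
    · simp only [Prod.snd_add, Prod.smul_snd, smul_eq_mul]
      field_simp; ring
  · intro h
    have := congrArg Prod.fst h
    simp only at this
    linarith
  · intro h
    have := congrArg Prod.fst h
    simp only at this
    linarith

/-! ### The weavings -/

/-- For `i < j`: the numbers `i` and `j` are neighbours in the cyclic order of `0, …, n - 1`. -/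
def Nbr (n i j : ℕ) : Prop := j = i + 1 ∨ (i = 0 ∧ j + 1 = n)

/-- The line `i` is above the line `j`: the larger index is above, except for cyclic neighbours. -/
def Up (n i j : ℕ) : Prop := (i < j ∧ Nbr n i j) ∨ (j < i ∧ ¬ Nbr n j i)

theorem up_iff {n i j : ℕ} (h : i ≠ j) : Up n i j ↔ ¬ Up n j i := by
  unfold Up
  rcases lt_or_gt_of_ne h with h | h
  · have h' : ¬ j < i := by omega
    by_cases hn : Nbr n i j <;> simp [h, h', hn]
  · have h' : ¬ i < j := by omega
    by_cases hn : Nbr n j i <;> simp [h, h', hn]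

/-- The weaving: the tangents of the parabola, and the designations `Up`. -/
def Wv (n : ℕ) : Weaving (Fin n) where
  line i := tang (i : ℕ)
  isLine i := isLine_tang _
  not_parallel i j h := not_parallel_tang fun h' => h (Fin.ext (Nat.cast_injective h'))
  not_concurrent i j k h1 h2 h3 p := by
    rintro ⟨hi, hj, hk⟩
    have e1 := cross_tang (fun h' => h1 (Fin.ext (Nat.cast_injective h'))) hi hj
    have e2 := cross_tang (fun h' => h2 (Fin.ext (Nat.cast_injective h'))) hi hk
    rw [e1] at e2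
    have e3 := congrArg Prod.fst e2
    simp only at e3
    exact h3 (Fin.ext (Nat.cast_injective (R := ℝ) (by linarith)))
  above i j := Up n i j
  above_iff i j h := up_iff fun h' => h (Fin.ext h')

/-! ### The weavings are not weakly realizable -/

theorem not_weak (n : ℕ) (hn : 4 ≤ n) : ¬ (Wv n).WeaklyRealizable := by
  rintro ⟨W', hab, hso, R, hR, hproj, hht⟩
  obtain ⟨e, he⟩ : ∃ e : ℕ → Fin n, ∀ j, j < n → (e j : ℕ) = j :=
    ⟨fun j => if h : j < n then ⟨j, h⟩ else ⟨0, by omega⟩, fun j h => by simp [h]⟩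
  have hne : ∀ i j, i < n → j < n → i ≠ j → e i ≠ e j := by
    intro i j hi hj hij h
    apply hij
    rw [← he i hi, ← he j hj, h]
  choose f hf using fun i => exists_height (hR i) (W'.isLine i) (hproj i)
  -- comparison of the heights
  have hlt : ∀ i j, i < n → j < n → Up n i j → ∀ p, p ∈ W'.line (e i) → p ∈ W'.line (e j) →
      (f (e j)).ev p < (f (e i)).ev p := by
    intro i j hi hj hu p hpi hpj
    have hij : i ≠ j := by
      rintro rfl
      rcases hu with ⟨h, -⟩ | ⟨h, -⟩ <;> exact lt_irrefl _ h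
    refine hht (e i) (e j) (hne i j hi hj hij) ?_ _ (hf _ p hpi) _ (hf _ p hpj) rfl
    rw [hab]
    change Up n (e i : ℕ) (e j : ℕ)
    rw [he i hi, he j hj]
    exact hu
  -- the crossings
  have hP : ∀ i j, ∃ p, i ≠ j → p ∈ W'.line i ∧ p ∈ W'.line j := by
    intro i j
    by_cases h : i = j
    · exact ⟨0, fun h' => absurd h h'⟩
    · obtain ⟨p, hp⟩ := exists_cross (W'.isLine i) (W'.isLine j) (W'.not_parallel i j h)
      exact ⟨p, fun _ => hp⟩
  choose P hP using hP
  -- the order of the crossings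
  have hbt : ∀ i j k l, i < n → j < k → k < l → l < n → i ≠ j → i ≠ k → i ≠ l → ∀ p q r,
      p ∈ W'.line (e i) → p ∈ W'.line (e j) → q ∈ W'.line (e i) → q ∈ W'.line (e k) →
      r ∈ W'.line (e i) → r ∈ W'.line (e l) → Sbtw ℝ p q r := by
    intro i j k l hi hjk hkl hl hij hik hil p q r h1 h2 h3 h4 h5 h6
    have hj : j < n := by omega
    have hk : k < n := by omega
    refine (hso (e i) (e j) (e k) (e l) (hne i j hi hj hij) (hne i k hi hk hik)
      (hne i l hi hl hil) (((i : ℝ) + j) / 2, (i : ℝ) * j) (((i : ℝ) + k) / 2, (i : ℝ) * k)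
      (((i : ℝ) + l) / 2, (i : ℝ) * l) p q r ?_ ?_ ?_ ?_ ?_ ?_ h1 h2 h3 h4 h5 h6).mp
      (sbtw_tang (i : ℝ) (Nat.cast_lt.mpr hjk) (Nat.cast_lt.mpr hkl))
    · change _ ∈ tang ((e i : ℕ) : ℝ)
      rw [he i hi]; exact mem_tang_left _ _
    · change _ ∈ tang ((e j : ℕ) : ℝ)
      rw [he j hj]; exact mem_tang_right _ _
    · change _ ∈ tang ((e i : ℕ) : ℝ)
      rw [he i hi]; exact mem_tang_left _ _
    · change _ ∈ tang ((e k : ℕ) : ℝ)
      rw [he k hk]; exact mem_tang_right _ _
    · change _ ∈ tang ((e i : ℕ) : ℝ)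
      rw [he i hi]; exact mem_tang_left _ _
    · change _ ∈ tang ((e l : ℕ) : ℝ)
      rw [he l hl]; exact mem_tang_right _ _
  -- the side of the line `0`
  have h12 := hP (e 1) (e 2) (hne 1 2 (by omega) (by omega) (by omega))
  have hq : P (e 1) (e 2) ∉ W'.line (e 0) := fun h0 =>
    W'.not_concurrent (e 0) (e 1) (e 2) (hne 0 1 (by omega) (by omega) (by omega))
      (hne 0 2 (by omega) (by omega) (by omega)) (hne 1 2 (by omega) (by omega) (by omega)) _
      ⟨h0, h12.1, h12.2⟩
  obtain ⟨G, hG0, hG1, hG⟩ := exists_side (W'.isLine (e 0)) hq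
  have hum : ∀ j : Fin n, ∃ u m : ℝ, j ≠ e 0 → ∀ p ∈ W'.line j,
      (f j).ev p - (f (e 0)).ev p = u + m * G.ev p := by
    intro j
    by_cases h : j = e 0
    · exact ⟨0, 0, fun h' => absurd h h'⟩
    · obtain ⟨u, m, hum⟩ := hG (W'.line j) (W'.isLine j) (W'.not_parallel _ _ (Ne.symm h))
        ⟨(f j).a - (f (e 0)).a, (f j).b - (f (e 0)).b, (f j).c - (f (e 0)).c⟩
      refine ⟨u, m, fun _ p hp => ?_⟩
      rw [← hum p hp]
      simp only [Aff.ev]
      ring
  choose u m hum using hum
  have hum' : ∀ j, 1 ≤ j → j < n → ∀ p ∈ W'.line (e j),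
      (f (e j)).ev p - (f (e 0)).ev p = u (e j) + m (e j) * G.ev p := fun j h1 h2 =>
    hum (e j) (hne j 0 h2 (by omega) (by omega))
  have hPP : ∀ i j, i < n → j < n → i ≠ j →
      P (e i) (e j) ∈ W'.line (e i) ∧ P (e i) (e j) ∈ W'.line (e j) := fun i j hi hj hij =>
    hP _ _ (hne i j hi hj hij)
  set g : ℕ → ℝ := fun j => G.ev (P (e j) (e (j + 1))) with hg
  set N := n - 1 with hN
  set E : ℝ := G.ev (P (e N) (e 1)) with hE
  -- the relations between the values of `G`
  have hst : ∀ j, 1 ≤ j → j + 1 < N → ∃ t : ℝ, 0 < t ∧ t < 1 ∧ g j = t * g (j + 1) := by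
    intro j h1 h2
    have a1 := hPP (j + 1) 0 (by omega) (by omega) (by omega)
    have a2 := hPP j (j + 1) (by omega) (by omega) (by omega)
    have a3 := hPP (j + 1) (j + 1 + 1) (by omega) (by omega) (by omega)
    exact sbtw_ev (hbt (j + 1) 0 j (j + 1 + 1) (by omega) (by omega) (by omega) (by omega)
      (by omega) (by omega) (by omega) _ _ _ a1.1 a1.2 a2.2 a2.1 a3.1 a3.2) (hG0 _ a1.2)
  have hst1 : ∃ t : ℝ, 0 < t ∧ t < 1 ∧ g 1 = t * E := by
    have a1 := hPP 1 0 (by omega) (by omega) (by omega)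
    have a2 := hPP 1 2 (by omega) (by omega) (by omega)
    have a3 := hPP N 1 (by omega) (by omega) (by omega)
    exact sbtw_ev (hbt 1 0 2 N (by omega) (by omega) (by omega) (by omega)
      (by omega) (by omega) (by omega) _ _ _ a1.1 a1.2 a2.1 a2.2 a3.2 a3.1) (hG0 _ a1.2)
  have hstN : ∃ t : ℝ, 0 < t ∧ t < 1 ∧ E = t * g (N - 1) := by
    have a1 := hPP N 0 (by omega) (by omega) (by omega)
    have a2 := hPP N 1 (by omega) (by omega) (by omega)
    have a3 := hPP (N - 1) (N - 1 + 1) (by omega) (by omega) (by omega)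
    have hNN : N - 1 + 1 = N := by omega
    have a3' := a3.2
    rw [hNN] at a3'
    refine sbtw_ev (hbt N 0 1 (N - 1) (by omega) (by omega) (by omega) (by omega)
      (by omega) (by omega) (by omega) _ _ _ a1.1 a1.2 a2.1 a2.2 ?_ a3.1) (hG0 _ a1.2)
    rw [hNN]
    rw [hNN] at a3
    exact a3.2
  have hgp : ∀ j, 1 ≤ j → j < N → 0 < g j := by
    intro j hj
    induction j, hj using Nat.le_induction with
    | base => intro _; exact hG1
    | succ j hj ih =>
      intro hjN
      obtain ⟨t, ht0, -, ht⟩ := hst j hj hjN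
      have := ih (by omega)
      rw [ht] at this
      exact (mul_pos_iff_of_pos_left ht0).mp this
  refine numeric N (fun j => u (e j)) (fun j => m (e j)) g E (by omega) ?_ ?_ ?_ hgp ?_ ?_ ?_
    ?_ ?_
  · have a := hPP 1 0 (by omega) (by omega) (by omega)
    have h1 := hlt 0 1 (by omega) (by omega) (Or.inl ⟨by omega, Or.inl rfl⟩) _ a.2 a.1
    have h2 := hum' 1 le_rfl (by omega) _ a.1
    rw [hG0 _ a.2, mul_zero, add_zero] at h2
    change u (e 1) < 0
    linarith
  · have a := hPP N 0 (by omega) (by omega) (by omega)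
    have h1 := hlt 0 N (by omega) (by omega) (Or.inl ⟨by omega, Or.inr ⟨rfl, by omega⟩⟩) _ a.2 a.1
    have h2 := hum' N (by omega) (by omega) _ a.1
    rw [hG0 _ a.2, mul_zero, add_zero] at h2
    change u (e N) < 0
    linarith
  · intro j h2 hjN
    have a := hPP j 0 (by omega) (by omega) (by omega)
    have h1 := hlt j 0 (by omega) (by omega) (Or.inr ⟨by omega, by
      rintro (h | ⟨-, h⟩) <;> omega⟩) _ a.1 a.2
    have h3 := hum' j (by omega) (by omega) _ a.1
    rw [hG0 _ a.2, mul_zero, add_zero] at h3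
    change 0 < u (e j)
    linarith
  · intro j h2 hjN
    obtain ⟨t, ht0, ht1, ht⟩ := hst (j - 1) (by omega) (by omega)
    have hjj : j - 1 + 1 = j := by omega
    rw [hjj] at ht
    have := hgp j (by omega) hjN
    rw [ht]
    nlinarith
  · obtain ⟨t, ht0, ht1, ht⟩ := hst1
    have h1 : 0 < g 1 := hgp 1 le_rfl (by omega)
    have h2 : 0 < E := by
      rw [ht] at h1
      exact (mul_pos_iff_of_pos_left ht0).mp h1
    rw [ht]
    nlinarith
  · obtain ⟨t, ht0, ht1, ht⟩ := hstN
    have h1 : 0 < g (N - 1) := hgp (N - 1) (by omega) (by omega)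
    rw [ht]
    nlinarith
  · intro j h1 hjN
    have a := hPP j (j + 1) (by omega) (by omega) (by omega)
    have h2 := hlt j (j + 1) (by omega) (by omega) (Or.inl ⟨by omega, Or.inl rfl⟩) _ a.1 a.2
    have h3 := hum' j h1 (by omega) _ a.1
    have h4 := hum' (j + 1) (by omega) (by omega) _ a.2
    change u (e (j + 1)) + m (e (j + 1)) * G.ev (P (e j) (e (j + 1))) <
      u (e j) + m (e j) * G.ev (P (e j) (e (j + 1)))
    linarith
  · have a := hPP N 1 (by omega) (by omega) (by omega)
    have h2 := hlt N 1 (by omega) (by omega) (Or.inr ⟨by omega, by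
      rintro (h | ⟨h, -⟩) <;> omega⟩) _ a.1 a.2
    have h3 := hum' N (by omega) (by omega) _ a.1
    have h4 := hum' 1 le_rfl (by omega) _ a.2
    change u (e 1) + m (e 1) * G.ev (P (e N) (e 1)) < u (e N) + m (e N) * G.ev (P (e N) (e 1))
    linarith

/-! ### The deletions are realizable -/

/-- the line of the space above the tangent at `t` with the heights `c x + d` -/
def lift (t c d : ℝ) : AffineSubspace ℝ Space :=
  AffineSubspace.mk' (((t, t ^ 2), c * t + d) : Space)
    (Submodule.span ℝ {(((1 : ℝ), 2 * t), c)})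

theorem mem_lift (t c d : ℝ) (P : Space) :
    P ∈ lift t c d ↔ P.1 ∈ tang t ∧ P.2 = c * P.1.1 + d := by
  rw [mem_tang]
  unfold lift
  rw [AffineSubspace.mem_mk', Submodule.mem_span_singleton]
  constructor
  · rintro ⟨a, ha⟩
    have h1 := congrArg (fun q : Space => q.1.1) ha
    have h2 := congrArg (fun q : Space => q.1.2) ha
    have h3 := congrArg (fun q : Space => q.2) ha
    simp only [Prod.smul_fst, smul_eq_mul, vsub_eq_sub, Prod.fst_sub, mul_one, Prod.smul_snd,
      Prod.snd_sub] at h1 h2 h3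
    rw [h1] at h2 h3
    exact ⟨by linarith, by linarith⟩
  · rintro ⟨h, h'⟩
    refine ⟨P.1.1 - t, Prod.ext (Prod.ext ?_ ?_) ?_⟩
    · simp
    · simp only [Prod.smul_snd, Prod.smul_fst, smul_eq_mul, vsub_eq_sub, Prod.snd_sub,
        Prod.fst_sub, h]
      ring
    · simp only [Prod.smul_snd, smul_eq_mul, vsub_eq_sub, Prod.snd_sub, h']
      ring

theorem isLine_lift (t c d : ℝ) : IsLine (lift t c d) := by
  unfold IsLine lift
  rw [AffineSubspace.direction_mk']
  exact finrank_span_singleton (by simp [Prod.ext_iff])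

theorem map_lift (t c d : ℝ) : (lift t c d).map proj = tang t := by
  ext p
  rw [AffineSubspace.mem_map]
  constructor
  · rintro ⟨P, hP, rfl⟩
    exact ((mem_lift t c d P).mp hP).1
  · intro hp
    exact ⟨(p, c * p.1 + d), (mem_lift t c d _).mpr ⟨hp, rfl⟩, rfl⟩

/-- The threshold functions: the value at the crossing with the line `j` of an affine function on
the line `i`. -/
noncomputable def th (n i j : ℕ) : ℝ :=
  if i + 1 = n then (j : ℝ) - 1 / 2 else (i : ℝ) + 3 / 2 - j

theorem th_pos {n i j : ℕ} (hj : j < n) (h2 : ¬ (i = 0 ∧ j + 1 = n)) (hu : Up n i j) : 1 / 2 ≤ th n i j := by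
  unfold th
  split_ifs with h
  · have hj1 : 1 ≤ j := by
      rcases hu with ⟨ha, -⟩ | ⟨-, hb⟩
      · omega
      · by_contra hj0
        exact hb (Or.inr ⟨by omega, h⟩)
    have : (1 : ℝ) ≤ j := by exact_mod_cast hj1
    linarith
  · have hj1 : j ≤ i + 1 := by
      rcases hu with ⟨ha, hb | hb⟩ | ⟨ha, -⟩
      · omega
      · exact absurd hb h2
      · omega
    have : (j : ℝ) ≤ i + 1 := by exact_mod_cast hj1
    linarith

theorem th_neg {n i j : ℕ} (hj : j < n) (h1 : i ≠ j + 1)
    (h2 : ¬ (i = 0 ∧ j + 1 = n)) (hu : Up n j i) : th n i j ≤ -(1 / 2) := by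
  unfold th
  split_ifs with h
  · have hj1 : j = 0 := by
      rcases hu with ⟨-, hb | hb⟩ | ⟨ha, -⟩
      · omega
      · exact hb.1
      · omega
    rw [hj1]; norm_num
  · have hj1 : i + 2 ≤ j := by
      rcases hu with ⟨-, hb | hb⟩ | ⟨ha, hb⟩
      · omega
      · omega
      · by_contra hj0
        exact hb (Or.inl (by omega))
    have : (i : ℝ) + 2 ≤ j := by exact_mod_cast hj1
    linarith

theorem th_abs {n i j : ℕ} (hi : i < n) (hj : j < n) : |th n i j| < 2 * (n : ℝ) := by
  have hi' : (i : ℝ) + 1 ≤ n := by exact_mod_cast hi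
  have hj' : (j : ℝ) + 1 ≤ n := by exact_mod_cast hj
  have hi0 : (0 : ℝ) ≤ i := Nat.cast_nonneg i
  have hj0 : (0 : ℝ) ≤ j := Nat.cast_nonneg j
  unfold th
  split_ifs
  · rw [abs_lt]; constructor <;> linarith
  · rw [abs_lt]; constructor <;> linarith

/-- the position of the line `i` in the order of elimination after the deletion of the line `l` -/
def rk (n l i : ℕ) : ℕ := if i < l then l - 1 - i else l + n - 1 - i

theorem rk_lt {n l i j : ℕ} (hi : i < n) (hl : l < n) (hil : i ≠ l) (hjl : j ≠ l)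
    (h : rk n l j < rk n l i) : i ≠ j + 1 ∧ ¬ (i = 0 ∧ j + 1 = n) := by
  unfold rk at h
  split_ifs at h with h1 h2 h2 <;> omega

theorem rk_inj {n l i j : ℕ} (hi : i < n) (hj : j < n) (h : rk n l j = rk n l i) : i = j := by
  unfold rk at h
  split_ifs at h with h1 h2 h2 <;> omega

theorem main_ineq {n l i j : ℕ} (hi : i < n) (hj : j < n) (hl : l < n) (hil : i ≠ l)
    (hjl : j ≠ l) (hij : i ≠ j) (hu : Up n i j) :
    (4 * (n : ℝ)) ^ rk n l j * th n j i < (4 * (n : ℝ)) ^ rk n l i * th n i j := by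
  have hn : (1 : ℝ) ≤ n := by exact_mod_cast (by omega : 1 ≤ n)
  have hK : (1 : ℝ) ≤ 4 * (n : ℝ) := by linarith
  have hK0 : (0 : ℝ) < 4 * (n : ℝ) := by linarith
  have a1 := abs_lt.mp (th_abs hi hj)
  have a2 := abs_lt.mp (th_abs hj hi)
  rcases lt_trichotomy (rk n l j) (rk n l i) with h | h | h
  · obtain ⟨b1, b2⟩ := rk_lt hi hl hil hjl h
    have hp := th_pos hj b2 hu
    have h1 : (4 * (n : ℝ)) ^ (rk n l j + 1) ≤ (4 * (n : ℝ)) ^ rk n l i :=
      pow_le_pow_right₀ hK h
    have h2 : 0 < (4 * (n : ℝ)) ^ rk n l j := pow_pos hK0 _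
    calc (4 * (n : ℝ)) ^ rk n l j * th n j i < (4 * (n : ℝ)) ^ rk n l j * (2 * n) :=
          mul_lt_mul_of_pos_left a2.2 h2
      _ = (4 * (n : ℝ)) ^ (rk n l j + 1) * (1 / 2) := by rw [pow_succ]; ring
      _ ≤ (4 * (n : ℝ)) ^ rk n l i * (1 / 2) := mul_le_mul_of_nonneg_right h1 (by norm_num)
      _ ≤ _ := mul_le_mul_of_nonneg_left hp (pow_pos hK0 _).le
  · exact absurd (rk_inj hi hj h) hij
  · obtain ⟨b1, b2⟩ := rk_lt hj hl hjl hil h
    have hp := th_neg hi b1 b2 hu
    have h1 : (4 * (n : ℝ)) ^ (rk n l i + 1) ≤ (4 * (n : ℝ)) ^ rk n l j :=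
      pow_le_pow_right₀ hK h
    have h2 : 0 < (4 * (n : ℝ)) ^ rk n l i := pow_pos hK0 _
    calc (4 * (n : ℝ)) ^ rk n l j * th n j i ≤ (4 * (n : ℝ)) ^ rk n l j * (-(1 / 2)) :=
          mul_le_mul_of_nonneg_left hp (pow_pos hK0 _).le
      _ ≤ (4 * (n : ℝ)) ^ (rk n l i + 1) * (-(1 / 2)) := by linarith
      _ = (4 * (n : ℝ)) ^ rk n l i * (-(2 * n)) := by rw [pow_succ]; ring
      _ < _ := mul_lt_mul_of_pos_left a1.1 h2

theorem erase_realizable (n : ℕ) (l : Fin n) : ((Wv n).erase l).Realizable := by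
  -- coefficients of the threshold functions
  obtain ⟨c, d, hcd⟩ : ∃ c d : ℕ → ℝ, ∀ i j : ℕ, c i * (((i : ℝ) + j) / 2) + d i = th n i j := by
    refine ⟨fun i => if i + 1 = n then 2 else -2, fun i => if i + 1 = n then -(i : ℝ) - 1 / 2 else
      2 * (i : ℝ) + 3 / 2, fun i j => ?_⟩
    by_cases h : i + 1 = n
    · simp only [th, h, if_true]; ring
    · simp only [th, h, if_false]; ring
  set K : ℕ → ℝ := fun i => (4 * (n : ℝ)) ^ rk n l i with hK
  refine ⟨fun i => lift ((i : Fin n) : ℕ) (K (i : Fin n) * c (i : Fin n))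
    (K (i : Fin n) * d (i : Fin n)), fun i => isLine_lift _ _ _, fun i => map_lift _ _ _, ?_⟩
  rintro ⟨i, hi⟩ ⟨j, hj⟩ hij hu p hp q hq hpq
  have hpq' : p.1 = q.1 := hpq
  rw [mem_lift] at hp hq
  have hij' : (i : ℕ) ≠ j := fun h => hij (Subtype.ext (Fin.ext h))
  have hil : (i : ℕ) ≠ l := fun h => hi (Fin.ext h)
  have hjl : (j : ℕ) ≠ l := fun h => hj (Fin.ext h)
  have h1 : p.1 = ((((i : ℕ) : ℝ) + ((j : ℕ) : ℝ)) / 2, ((i : ℕ) : ℝ) * ((j : ℕ) : ℝ)) :=
    cross_tang (fun h => hij' (Nat.cast_injective h)) hp.1 (by rw [hpq']; exact hq.1)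
  have h2 : p.1.1 = (((i : ℕ) : ℝ) + ((j : ℕ) : ℝ)) / 2 := by rw [h1]
  have h3 : q.1.1 = (((j : ℕ) : ℝ) + ((i : ℕ) : ℝ)) / 2 := by rw [← hpq', h2, add_comm]
  have e1 : p.2 = K i * th n i j := by
    rw [hp.2, h2, ← hcd]; ring
  have e2 : q.2 = K j * th n j i := by
    rw [hq.2, h3, ← hcd]; ring
  rw [e1, e2]
  exact main_ineq i.2 j.2 l.2 hil hjl hij' hu

/-! ### The result -/

/-- For every `n ≥ 4` the weaving of `n` lines which consists of the tangents `y = 2 i x - i²`,
`0 ≤ i < n`, where for `i < j` the line `j` is above the line `i`, except if `j = i + 1` or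
`(i, j) = (0, n - 1)`, is not weakly realizable, and each deletion of one line is realizable. -/
theorem result : ∀ n : ℕ, 4 ≤ n → ∃ W : Weaving (Fin n),
    (∀ (i : Fin n) (p : Plane), p ∈ W.line i ↔ p.2 = 2 * ((i : ℕ) : ℝ) * p.1 - ((i : ℕ) : ℝ) ^ 2) ∧
    (∀ i j : Fin n, i < j → (W.above j i ↔ ¬ ((j : ℕ) = i + 1 ∨ ((i : ℕ) = 0 ∧ (j : ℕ) + 1 = n)))) ∧
    ¬ W.WeaklyRealizable ∧ ∀ l : Fin n, (W.erase l).Realizable := by
  intro n hn
  refine ⟨Wv n, fun i p => mem_tang _ p, fun i j hij => ?_, not_weak n hn, erase_realizable n⟩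
  have h : ¬ ((j : ℕ) < i) := by
    have : (i : ℕ) < j := hij
    omega
  have h' : (i : ℕ) < j := hij
  change (((j : ℕ) < i ∧ Nbr n j i) ∨ ((i : ℕ) < j ∧ ¬ Nbr n i j)) ↔ _
  simp only [h, h', false_and, true_and, false_or]
  rfl

end Pool.Agent.Results.MP_560143_co.MinimalWeavings
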